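import Pool.Agent.Helper12.VW.Defs
import Pool.Agent.Helper15.VW.M2
import Pool.Agent.Helper35.VW.BoxAbs
import Pool.Agent.Helper88.VW.HypM3

/-!
Polynomials in a box with prescribed indices at primes: modulus up to `H^{1+1/(n+2)}`.
-/

set_option autoImplicit false

open Polynomial NumberField

namespace Pool.Agent.Helper12.VW

private theorem bc_toPoly_smul {n p : ℕ} [Fact p.Prime] (v : Fin (n + 1) → ZMod p) (t : ZMod p) :
    toPoly (t • v) = C t * toPoly v := by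
  simp only [toPoly, Finset.mul_sum, Pi.smul_apply, smul_eq_mul, C_mul, mul_assoc]

private theorem bc_nroots_smul {n p : ℕ} [Fact p.Prime] (v : Fin (n + 1) → ZMod p) (t : ZMod p)
    (ht : t ≠ 0) : nroots (t • v) = nroots v := by
  have h1 : (C t * toPoly v).rootSet (AlgebraicClosure (ZMod p)) =
      (toPoly v).rootSet (AlgebraicClosure (ZMod p)) := by
    have h2 : algebraMap (ZMod p) (AlgebraicClosure (ZMod p)) t ≠ 0 := by
      rwa [Ne, map_eq_zero]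
    unfold rootSet aroots
    rw [Polynomial.map_mul, map_C, roots_C_mul _ h2]
  unfold nroots
  rw [bc_toPoly_smul, h1]
  simp [ht]

private theorem bc_Ind_smul {n p k : ℕ} [Fact p.Prime] (v : Fin (n + 1) → ZMod p) (t : ZMod p)
    (ht : t ≠ 0) (hv : v ∈ Ind n p k) : t • v ∈ Ind n p k := by
  rcases hv with h | h
  · left; rw [h, smul_zero]
  · right; rwa [bc_nroots_smul v t ht]

/-- VW-B2 (from B1, M2, M3) -/
theorem box_count (n : ℕ) (hn : 1 ≤ n) : ∃ A B : ℝ, 0 < A ∧ 1 ≤ B ∧ ∀ (H : ℕ), 1 ≤ H →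
    ∀ (P : Finset ℕ) (k : ℕ → ℕ), (∀ p ∈ P, p.Prime ∧ n < p ∧ k p ≤ n) →
      (∏ p ∈ P, p) ^ (n + 2) ≤ H ^ (n + 3) →
      ({a ∈ (Box n H : Set (Fin (n + 1) → ℤ)) | ∀ p ∈ P, InInd a p (k p)}.ncard : ℝ)
        ≤ A * B ^ P.card * (H : ℝ) ^ (n + 1) / ∏ p ∈ P, (p : ℝ) ^ (k p) := by
  obtain ⟨c2, hc2⟩ := card_Ind_le n hn
  obtain ⟨c3, hc3⟩ := card_Ind_hyperplane_le n hn
  obtain ⟨A, B, hA, hB, h⟩ := box_abstract n (max c2 c3)
  refine ⟨A, B, hA, hB, ?_⟩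
  intro H hH P k hP hq
  have key := h H hH P k (fun p => {v | ∃ hp : p.Prime, v ∈ @Ind n p (k p) ⟨hp⟩})
    (fun p hp => (hP p hp).1) ?_ ?_ ?_ hq
  · exact key
  · rintro p hp v ⟨hpp, hv⟩ t ht
    have : Fact p.Prime := ⟨hpp⟩
    exact ⟨hpp, bc_Ind_smul v t ht hv⟩
  · intro p hp
    obtain ⟨hpp, hnp, hkn⟩ := hP p hp
    have : Fact p.Prime := ⟨hpp⟩
    have hset : {v : Fin (n + 1) → ZMod p | ∃ hp : p.Prime, v ∈ @Ind n p (k p) ⟨hp⟩} =
        Ind n p (k p) := by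
      ext v
      constructor
      · rintro ⟨_, hv⟩; exact hv
      · intro hv; exact ⟨hpp, hv⟩
    calc {v : Fin (n + 1) → ZMod p | ∃ hp : p.Prime, v ∈ @Ind n p (k p) ⟨hp⟩}.ncard * p ^ (k p)
        = (Ind n p (k p)).ncard * p ^ (k p) := by rw [hset]
      _ ≤ (c2 * p ^ (n + 1 - k p)) * p ^ (k p) := Nat.mul_le_mul_right _ (hc2 p (k p) hkn)
      _ = c2 * p ^ (n + 1) := by
          rw [mul_assoc, ← pow_add, Nat.sub_add_cancel (by omega)]
      _ ≤ max c2 c3 * p ^ (n + 1) := Nat.mul_le_mul_right _ (le_max_left _ _)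
  · intro p hp w hw
    obtain ⟨hpp, hnp, hkn⟩ := hP p hp
    have : Fact p.Prime := ⟨hpp⟩
    have hset : {v ∈ {v : Fin (n + 1) → ZMod p | ∃ hp : p.Prime, v ∈ @Ind n p (k p) ⟨hp⟩} |
        ∑ i, w i * v i = 0} = {v ∈ Ind n p (k p) | ∑ i, w i * v i = 0} := by
      ext v
      constructor
      · rintro ⟨⟨_, hv⟩, h2⟩; exact ⟨hv, h2⟩
      · rintro ⟨hv, h2⟩; exact ⟨⟨hpp, hv⟩, h2⟩
    calc {v ∈ {v : Fin (n + 1) → ZMod p | ∃ hp : p.Prime, v ∈ @Ind n p (k p) ⟨hp⟩} |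
          ∑ i, w i * v i = 0}.ncard * p ^ (k p)
        = {v ∈ Ind n p (k p) | ∑ i, w i * v i = 0}.ncard * p ^ (k p) := by rw [hset]
      _ ≤ (c3 * p ^ (n - k p)) * p ^ (k p) := Nat.mul_le_mul_right _ (hc3 p (k p) hnp hkn w hw)
      _ = c3 * p ^ n := by
          rw [mul_assoc, ← pow_add, Nat.sub_add_cancel hkn]
      _ ≤ max c2 c3 * p ^ n := Nat.mul_le_mul_right _ (le_max_right _ _)

end Pool.Agent.Helper12.VW
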