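import Pool.Agent.Helper12.VW.Defs
import Pool.Agent.Helper87.VW.Sums
import Pool.Agent.Helper88.VW.LargePrimes
import Pool.Agent.Helper93.VW.BoxCount

/-!
Large moduli: polynomials with many primes of index at least two.
-/

set_option autoImplicit false

open Polynomial NumberField

namespace Pool.Agent.Helper12.VW

/-- Minimal divisor beyond a bound. -/
private theorem exists_min_divisor (q : ℕ) (hq : Squarefree q) (Z : ℝ) (hZ : Z < q) :
    ∃ q' : ℕ, q' ∣ q ∧ Z < q' ∧ ∀ p ∈ q'.primeFactors, (q' : ℝ) ≤ Z * p := by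
  classical
  have hq0 : q ≠ 0 := hq.ne_zero
  have hex : ∃ d : ℕ, d ∣ q ∧ Z < d := ⟨q, dvd_rfl, hZ⟩
  refine ⟨Nat.find hex, (Nat.find_spec hex).1, (Nat.find_spec hex).2, ?_⟩
  intro p hp
  have hpp := Nat.prime_of_mem_primeFactors hp
  have hpd := Nat.dvd_of_mem_primeFactors hp
  have hpos : 0 < Nat.find hex := Nat.pos_of_ne_zero fun h0 => by
    have := (Nat.find_spec hex).1
    rw [h0] at this
    exact hq0 (Nat.eq_zero_of_zero_dvd this)
  have hlt : Nat.find hex / p < Nat.find hex := Nat.div_lt_self hpos hpp.one_lt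
  have h1 := Nat.find_min hex hlt
  rw [not_and, not_lt] at h1
  have h2 := h1 ((Nat.div_dvd_of_dvd hpd).trans (Nat.find_spec hex).1)
  have h3 : ((Nat.find hex : ℕ) : ℝ) = ((Nat.find hex / p : ℕ) : ℝ) * p := by
    rw [← Nat.cast_mul, Nat.div_mul_cancel hpd]
  rw [h3]
  exact mul_le_mul_of_nonneg_right h2 (Nat.cast_nonneg _)

/-- VW-E4 (uses B2, S, E3): all large moduli. -/
theorem large_modulus (n : ℕ) (hn : 3 ≤ n) : ∃ C : ℝ, 0 < C ∧ ∀ H : ℕ, 1 ≤ H →
      ({a ∈ (Box n H : Set (Fin (n + 1) → ℤ)) | a (Fin.last n) ≠ 0 ∧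
        ∃ q : ℕ, Squarefree q ∧ H ^ (n + 3) < q ^ (n + 2) ∧
          ∀ p ∈ q.primeFactors, n < p ∧ InInd a p 2}.ncard : ℝ)
        ≤ C * (H : ℝ) ^ n := by
  classical
  set δ : ℝ := 1 / ((n : ℝ) + 2) with hδ
  have hn2 : (0 : ℝ) < (n : ℝ) + 2 := by positivity
  have hδpos : 0 < δ := by positivity
  have hδ1 : δ ≤ 1 := by
    rw [hδ, div_le_one hn2]
    have : (0 : ℝ) ≤ n := Nat.cast_nonneg _
    linarith
  obtain ⟨A, B, hA, hB, hbox⟩ := box_count n (by omega)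
  obtain ⟨C1, hC1, hlp⟩ := large_primes n hn (δ / 2) (by positivity)
  obtain ⟨C2, hC2, hsum⟩ := sum_powers 2 le_rfl B (δ / 4) hB (by positivity)
  refine ⟨A * C2 + C1, by positivity, ?_⟩
  intro H hH
  have hHR : (1 : ℝ) ≤ H := by exact_mod_cast hH
  have hH0 : (0 : ℝ) < H := by linarith
  -- the finite set of moduli
  set T : Finset ℕ := (Finset.range (H ^ (n + 3) + 1)).filter fun q =>
    Squarefree q ∧ (H : ℝ) ^ (1 + δ / 2) ≤ q ∧ q ^ (n + 2) ≤ H ^ (n + 3) ∧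
      ∀ p ∈ q.primeFactors, n < p with hT
  set S3 : Set (Fin (n + 1) → ℤ) := {a ∈ (Box n H : Set (Fin (n + 1) → ℤ)) | a (Fin.last n) ≠ 0 ∧
        ∃ q : ℕ, Squarefree q ∧ (H : ℝ) ^ (1 + δ / 2) ≤ q ∧
          ∀ p ∈ q.primeFactors, n < p ∧ (H : ℝ) ^ (δ / 2) ≤ p ∧ InInd a p 2} with hS3
  have hcover : {a ∈ (Box n H : Set (Fin (n + 1) → ℤ)) | a (Fin.last n) ≠ 0 ∧
        ∃ q : ℕ, Squarefree q ∧ H ^ (n + 3) < q ^ (n + 2) ∧
          ∀ p ∈ q.primeFactors, n < p ∧ InInd a p 2} ⊆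
      (⋃ q ∈ T, {a ∈ (Box n H : Set (Fin (n + 1) → ℤ)) | ∀ p ∈ q.primeFactors, InInd a p 2}) ∪
        S3 := by
    rintro a ⟨haB, hlast, q, hqsf, hq, hp⟩
    have hqpos : 0 < q := hqsf.ne_zero.bot_lt
    -- q > H^(1+δ/2)
    have hbig : ∀ r : ℕ, H ^ (n + 3) < r ^ (n + 2) → (H : ℝ) ^ (1 + δ) ≤ r := by
      intro r hr
      have h1 : ((H : ℝ) ^ (1 + δ)) ^ ((n : ℝ) + 2) = (H : ℝ) ^ (n + 3) := by
        rw [← Real.rpow_mul hH0.le, ← Real.rpow_natCast (H : ℝ) (n + 3)]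
        congr 1
        rw [hδ]
        push_cast
        field_simp
        ring
      have h2 : ((H : ℝ) ^ (1 + δ)) ^ ((n : ℝ) + 2) ≤ (r : ℝ) ^ ((n : ℝ) + 2) := by
        rw [h1]
        have : (r : ℝ) ^ ((n : ℝ) + 2) = (r : ℝ) ^ (n + 2) := by
          rw [← Real.rpow_natCast (r : ℝ) (n + 2)]
          push_cast
          rfl
        rw [this]
        exact_mod_cast hr.le
      exact (Real.rpow_le_rpow_iff (by positivity) (by positivity) hn2).1 h2
    have hdl : (H : ℝ) ^ (1 + δ / 2) ≤ (H : ℝ) ^ (1 + δ) :=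
      Real.rpow_le_rpow_of_exponent_le hHR (by linarith)
    have hZ : (H : ℝ) ^ (1 + δ / 2) < q := by
      have h1 := hbig q hq
      rcases lt_or_eq_of_le (hdl.trans h1) with h | h
      · exact h
      · -- equality forces H = 1 and q = 1 contradiction
        exfalso
        have h2 : (H : ℝ) ^ (1 + δ) = (H : ℝ) ^ (1 + δ / 2) := le_antisymm (h ▸ h1) hdl
        rcases eq_or_lt_of_le hHR with h3 | h3
        · rw [← h3, Real.one_rpow] at h
          have hH1 : H = 1 := by exact_mod_cast h3.symm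
          have hq1 : q = 1 := by exact_mod_cast h.symm
          rw [hH1, hq1] at hq
          simp at hq
        · have := Real.rpow_lt_rpow_of_exponent_lt h3 (show 1 + δ / 2 < 1 + δ by linarith)
          linarith
    obtain ⟨q', hq'd, hq'Z, hq'p⟩ := exists_min_divisor q hqsf _ hZ
    have hq'sf : Squarefree q' := hqsf.squarefree_of_dvd hq'd
    have hsub : q'.primeFactors ⊆ q.primeFactors := Nat.primeFactors_mono hq'd hqpos.ne'
    by_cases hle : q' ^ (n + 2) ≤ H ^ (n + 3)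
    · left
      simp only [Set.mem_iUnion]
      refine ⟨q', ?_, haB, fun p hp' => (hp p (hsub hp')).2⟩
      rw [hT, Finset.mem_filter, Finset.mem_range]
      refine ⟨?_, hq'sf, hq'Z.le, hle, fun p hp' => (hp p (hsub hp')).1⟩
      have : q' ≤ q' ^ (n + 2) := Nat.le_self_pow (by omega) _
      omega
    · right
      push Not at hle
      refine ⟨haB, hlast, q', hq'sf, hq'Z.le, fun p hp' =>
        ⟨(hp p (hsub hp')).1, ?_, (hp p (hsub hp')).2⟩⟩
      have h1 := hbig q' hle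
      have h2 := hq'p p hp'
      have h3 : (H : ℝ) ^ (1 + δ) = (H : ℝ) ^ (1 + δ / 2) * (H : ℝ) ^ (δ / 2) := by
        rw [← Real.rpow_add hH0]
        congr 1
        ring
      rw [h3] at h1
      have h4 : (0 : ℝ) < (H : ℝ) ^ (1 + δ / 2) := by positivity
      exact le_of_mul_le_mul_left (h1.trans h2) h4
  have hfinBox : ∀ Q : (Fin (n + 1) → ℤ) → Prop,
      {a ∈ (Box n H : Set (Fin (n + 1) → ℤ)) | Q a}.Finite := fun Q =>
    (Finset.finite_toSet (Box n H)).subset fun a ha => ha.1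
  have hfinU : (⋃ q ∈ T, {a ∈ (Box n H : Set (Fin (n + 1) → ℤ)) |
      ∀ p ∈ q.primeFactors, InInd a p 2}).Finite :=
    Set.Finite.biUnion (Finset.finite_toSet _) fun q _ => hfinBox _
  have hone : ∀ q ∈ T, ({a ∈ (Box n H : Set (Fin (n + 1) → ℤ)) |
      ∀ p ∈ q.primeFactors, InInd a p 2}.ncard : ℝ) ≤
        A * (H : ℝ) ^ (n + 1) * (B ^ q.primeFactors.card / (q : ℝ) ^ 2) := by
    intro q hq
    rw [hT, Finset.mem_filter] at hq
    obtain ⟨-, hsf, -, hle, hpn⟩ := hq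
    have hprod : ∏ p ∈ q.primeFactors, p = q := Nat.prod_primeFactors_of_squarefree hsf
    have h1 := hbox H hH q.primeFactors (fun _ => 2)
      (fun p hp => ⟨Nat.prime_of_mem_primeFactors hp, hpn p hp, by omega⟩) (by rw [hprod]; exact hle)
    refine h1.trans (le_of_eq ?_)
    have h2 : ∏ p ∈ q.primeFactors, (p : ℝ) ^ 2 = (q : ℝ) ^ 2 := by
      rw [Finset.prod_pow]
      congr 1
      rw [← Nat.cast_prod, hprod]
    rw [h2]
    ring
  have hsumT := hsum ((H : ℝ) ^ (1 + δ / 2)) T (Real.one_le_rpow hHR (by positivity))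
    (fun D hD => by
      rw [hT, Finset.mem_filter] at hD
      exact hD.2.2.1)
  have hexp : ((H : ℝ) ^ (1 + δ / 2)) ^ (1 - ((2 : ℕ) : ℝ) + δ / 4) ≤ (H : ℝ) ^ (-1 : ℝ) := by
    rw [← Real.rpow_mul hH0.le]
    refine Real.rpow_le_rpow_of_exponent_le hHR ?_
    push_cast
    nlinarith
  calc ({a ∈ (Box n H : Set (Fin (n + 1) → ℤ)) | a (Fin.last n) ≠ 0 ∧
        ∃ q : ℕ, Squarefree q ∧ H ^ (n + 3) < q ^ (n + 2) ∧
          ∀ p ∈ q.primeFactors, n < p ∧ InInd a p 2}.ncard : ℝ)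
      ≤ (((⋃ q ∈ T, {a ∈ (Box n H : Set (Fin (n + 1) → ℤ)) |
          ∀ p ∈ q.primeFactors, InInd a p 2}) ∪ S3).ncard : ℝ) := by
        exact_mod_cast Set.ncard_le_ncard hcover (hfinU.union (hfinBox _))
    _ ≤ ((⋃ q ∈ T, {a ∈ (Box n H : Set (Fin (n + 1) → ℤ)) |
          ∀ p ∈ q.primeFactors, InInd a p 2}).ncard : ℝ) + S3.ncard := by
        exact_mod_cast Set.ncard_union_le _ _
    _ ≤ A * C2 * (H : ℝ) ^ n + C1 * (H : ℝ) ^ n := by
        refine add_le_add ?_ (hlp H hH)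
        calc ((⋃ q ∈ T, {a ∈ (Box n H : Set (Fin (n + 1) → ℤ)) |
              ∀ p ∈ q.primeFactors, InInd a p 2}).ncard : ℝ)
            ≤ ((∑ q ∈ T, {a ∈ (Box n H : Set (Fin (n + 1) → ℤ)) |
              ∀ p ∈ q.primeFactors, InInd a p 2}.ncard : ℕ) : ℝ) := by
              exact_mod_cast Finset.set_ncard_biUnion_le _ _
          _ = ∑ q ∈ T, ({a ∈ (Box n H : Set (Fin (n + 1) → ℤ)) |
              ∀ p ∈ q.primeFactors, InInd a p 2}.ncard : ℝ) := by push_cast; rfl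
          _ ≤ ∑ q ∈ T, A * (H : ℝ) ^ (n + 1) * (B ^ q.primeFactors.card / (q : ℝ) ^ 2) :=
              Finset.sum_le_sum hone
          _ = A * (H : ℝ) ^ (n + 1) * ∑ q ∈ T, (B ^ q.primeFactors.card / (q : ℝ) ^ 2) := by
              rw [Finset.mul_sum]
          _ ≤ A * (H : ℝ) ^ (n + 1) * (C2 * (H : ℝ) ^ (-1 : ℝ)) := by
              refine mul_le_mul_of_nonneg_left ?_ (by positivity)
              exact hsumT.trans (mul_le_mul_of_nonneg_left hexp hC2.le)
          _ = A * C2 * (H : ℝ) ^ n := by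
              rw [Real.rpow_neg_one, pow_succ]
              field_simp
    _ = (A * C2 + C1) * (H : ℝ) ^ n := by ring

end Pool.Agent.Helper12.VW
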