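import Pool.Agent.Helper12.VW.Defs
import Pool.Agent.Helper87.VW.Sums

/-!
Number of ideals of bounded norm, uniformly in the number fields of a given degree.
-/

set_option autoImplicit false

open Polynomial NumberField

namespace Pool.Agent.Helper12.VW

section

variable {L : Type} [Field L] [NumberField L]

private theorem absNorm_natCast (a : ℕ) :
    Ideal.absNorm (Ideal.span {(a : 𝓞 L)}) = a ^ Module.finrank ℚ L := by
  rw [Ideal.absNorm_span_singleton]
  have h : (a : 𝓞 L) = algebraMap ℤ (𝓞 L) (a : ℤ) := by simp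
  rw [h, Algebra.norm_algebraMap, Int.natAbs_pow, Int.natAbs_natCast, RingOfIntegers.rank]

private theorem dvd_absNorm_of_mem (P : Ideal (𝓞 L)) (hP : P.IsPrime) (_hP0 : P ≠ ⊥) (p : ℕ)
    (hp : p.Prime) (hmem : (p : 𝓞 L) ∈ P) : p ∣ P.absNorm := by
  have h1 : P.absNorm ∣ p ^ Module.finrank ℚ L := by
    rw [← absNorm_natCast]
    exact Ideal.absNorm_dvd_absNorm_of_le ((Ideal.span_singleton_le_iff_mem _).2 hmem)
  obtain ⟨f, hf, h2⟩ := (Nat.dvd_prime_pow hp).1 h1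
  rw [h2]
  refine dvd_pow_self _ ?_
  rintro rfl
  rw [pow_zero, Ideal.absNorm_eq_one_iff] at h2
  exact hP.ne_top h2

private theorem count_le (a : ℕ) (ha : a ≠ 0) (P : Ideal (𝓞 L)) (hP : P.IsPrime) (hP0 : P ≠ ⊥)
    (p : ℕ) (hp : p.Prime) (hmem : (p : 𝓞 L) ∈ P) (m : ℕ)
    (hdvd : P ^ m ∣ Ideal.span {(a : 𝓞 L)}) :
    m ≤ Module.finrank ℚ L * a.factorization p := by
  have h1 : p ^ m ∣ a ^ Module.finrank ℚ L := by
    calc p ^ m ∣ P.absNorm ^ m := pow_dvd_pow_of_dvd (dvd_absNorm_of_mem P hP hP0 p hp hmem) m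
      _ = (P ^ m).absNorm := (map_pow _ _ _).symm
      _ ∣ (Ideal.span {(a : 𝓞 L)}).absNorm := map_dvd _ hdvd
      _ = a ^ Module.finrank ℚ L := absNorm_natCast a
  have h2 := (hp.pow_dvd_iff_le_factorization (pow_ne_zero _ ha)).1 h1
  simpa using h2

private theorem card_fiber_le (p : ℕ) (hp : p.Prime) (F : Finset (Ideal (𝓞 L)))
    (hF : ∀ P ∈ F, P.IsPrime ∧ P ≠ ⊥ ∧ (p : 𝓞 L) ∈ P) : F.card ≤ Module.finrank ℚ L := by
  have h1 : ∏ P ∈ F, P ∣ Ideal.span {(p : 𝓞 L)} := by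
    refine Finset.prod_primes_dvd _ ?_ ?_
    · intro P hP
      exact Ideal.prime_of_isPrime (hF P hP).2.1 (hF P hP).1
    · intro P hP
      exact Ideal.dvd_iff_le.2 ((Ideal.span_singleton_le_iff_mem _).2 (hF P hP).2.2)
  have h2 : p ^ F.card ∣ p ^ Module.finrank ℚ L := by
    calc p ^ F.card = ∏ P ∈ F, p := by simp
      _ ∣ ∏ P ∈ F, P.absNorm := Finset.prod_dvd_prod_of_dvd _ _ fun P hP =>
          dvd_absNorm_of_mem P (hF P hP).1 (hF P hP).2.1 p hp (hF P hP).2.2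
      _ = (∏ P ∈ F, P).absNorm := (map_prod _ _ _).symm
      _ ∣ (Ideal.span {(p : 𝓞 L)}).absNorm := map_dvd _ h1
      _ = p ^ Module.finrank ℚ L := absNorm_natCast p
  exact (Nat.pow_dvd_pow_iff_le_right hp.one_lt).1 h2

open UniqueFactorizationMonoid in
private theorem divisors_le (a : ℕ) (ha : a ≠ 0) :
    {J : Ideal (𝓞 L) | J ∣ Ideal.span {(a : 𝓞 L)}}.Finite ∧
    {J : Ideal (𝓞 L) | J ∣ Ideal.span {(a : 𝓞 L)}}.ncard ≤
      (Module.finrank ℚ L ^ a.primeFactors.card * a.divisors.card) ^ Module.finrank ℚ L := by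
  classical
  set k := Module.finrank ℚ L with hk
  have hkpos : 0 < k := Module.finrank_pos
  have hne : Ideal.span {(a : 𝓞 L)} ≠ ⊥ := by
    rw [Ne, Ideal.span_singleton_eq_bot]
    exact_mod_cast ha
  set s := normalizedFactors (Ideal.span {(a : 𝓞 L)}) with hs
  have hJ0 : ∀ J : Ideal (𝓞 L), J ∣ Ideal.span {(a : 𝓞 L)} → J ≠ 0 := by
    rintro J hJ rfl
    exact hne (zero_dvd_iff.1 hJ)
  have hmaps : ∀ J ∈ {J : Ideal (𝓞 L) | J ∣ Ideal.span {(a : 𝓞 L)}},
      normalizedFactors J ∈ (Finset.Iic s : Set (Multiset (Ideal (𝓞 L)))) := by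
    intro J hJ
    rw [Finset.coe_Iic, Set.mem_Iic]
    exact (dvd_iff_normalizedFactors_le_normalizedFactors (hJ0 J hJ) hne).1 hJ
  have hinj : Set.InjOn (fun J : Ideal (𝓞 L) => normalizedFactors J)
      {J : Ideal (𝓞 L) | J ∣ Ideal.span {(a : 𝓞 L)}} := by
    intro J hJ J' hJ' h
    have h' : normalizedFactors J = normalizedFactors J' := h
    rw [← Ideal.prod_normalizedFactors_eq_self (hJ0 J hJ),
      ← Ideal.prod_normalizedFactors_eq_self (hJ0 J' hJ'), h']
  refine ⟨Set.Finite.of_injOn hmaps hinj (Finset.finite_toSet _), ?_⟩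
  have h1 : {J : Ideal (𝓞 L) | J ∣ Ideal.span {(a : 𝓞 L)}}.ncard ≤ (Finset.Iic s).card := by
    rw [← Set.ncard_coe_finset]
    exact Set.ncard_le_ncard_of_injOn _ hmaps hinj (Finset.finite_toSet _)
  refine h1.trans ?_
  rw [Multiset.card_Iic]
  -- data of the primes
  have hprime : ∀ P ∈ s.toFinset, P.IsPrime ∧ P ≠ ⊥ ∧ ∃ p ∈ a.primeFactors, (p : 𝓞 L) ∈ P := by
    intro P hP
    have hP1 : P ∈ s := Multiset.mem_toFinset.1 hP
    have hP2 : Prime P := prime_of_normalized_factor P hP1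
    have hP3 : P ∣ Ideal.span {(a : 𝓞 L)} := dvd_of_mem_normalizedFactors hP1
    have hPp : P.IsPrime := Ideal.isPrime_of_prime hP2
    refine ⟨hPp, hP2.ne_zero, ?_⟩
    have hmem : (a : 𝓞 L) ∈ P := (Ideal.dvd_span_singleton).1 hP3
    have h3 : ((∏ p ∈ a.primeFactors, p ^ a.factorization p : ℕ) : 𝓞 L) ∈ P := by
      have h9 : ∏ p ∈ a.primeFactors, p ^ a.factorization p = a :=
        Nat.prod_factorization_pow_eq_self ha
      rw [h9]
      exact hmem
    push_cast at h3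
    rw [hPp.prod_mem_iff] at h3
    obtain ⟨p, hp, h4⟩ := h3
    exact ⟨p, hp, hPp.mem_of_pow_mem _ h4⟩
  choose! π hπ using fun P hP => (hprime P hP).2.2
  rw [← Finset.prod_fiberwise_of_maps_to (g := π) (t := a.primeFactors)
    (fun P hP => (hπ P hP).1)]
  have h5 : ∀ p ∈ a.primeFactors, ∏ P ∈ s.toFinset with π P = p, (s.count P + 1) ≤
      (k * (a.factorization p + 1)) ^ k := by
    intro p hp
    have hpp : p.Prime := Nat.prime_of_mem_primeFactors hp
    calc ∏ P ∈ s.toFinset with π P = p, (s.count P + 1)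
        ≤ ∏ P ∈ s.toFinset with π P = p, (k * (a.factorization p + 1)) := by
          refine Finset.prod_le_prod' fun P hP => ?_
          rw [Finset.mem_filter] at hP
          have hP1 := hprime P hP.1
          have hmem : (p : 𝓞 L) ∈ P := hP.2 ▸ (hπ P hP.1).2
          have h6 : P ^ (s.count P) ∣ Ideal.span {(a : 𝓞 L)} := by
            have : P ^ (s.count P) ∣ s.prod := by
              rw [← Multiset.prod_replicate]
              exact Multiset.prod_dvd_prod_of_le (Multiset.le_count_iff_replicate_le.1 le_rfl)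
            rwa [hs, Ideal.prod_normalizedFactors_eq_self hne] at this
          have h7 := count_le a ha P hP1.1 hP1.2.1 p hpp hmem _ h6
          rw [← hk] at h7
          rw [mul_add, mul_one]
          omega
      _ = (k * (a.factorization p + 1)) ^ (s.toFinset.filter (fun P => π P = p)).card := by
          rw [Finset.prod_const]
      _ ≤ (k * (a.factorization p + 1)) ^ k := by
          refine Nat.pow_le_pow_right (by positivity) ?_
          refine card_fiber_le p hpp _ fun P hP => ?_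
          rw [Finset.mem_filter] at hP
          have hP1 := hprime P hP.1
          exact ⟨hP1.1, hP1.2.1, hP.2 ▸ (hπ P hP.1).2⟩
  refine (Finset.prod_le_prod' h5).trans (le_of_eq ?_)
  rw [Finset.prod_pow, Finset.prod_mul_distrib, Finset.prod_const, Nat.card_divisors ha]

end

/-- VW-G5: number of ideals of norm at most `X`. -/
theorem card_ideals_le (k : ℕ) (ε : ℝ) (hε : 0 < ε) : ∃ C : ℝ, 0 < C ∧
    ∀ (L : Type) [Field L] [NumberField L], Module.finrank ℚ L = k → ∀ X : ℕ, 1 ≤ X →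
      {J : Ideal (𝓞 L) | J ≠ ⊥ ∧ J.absNorm ≤ X}.Finite ∧
      ({J : Ideal (𝓞 L) | J ≠ ⊥ ∧ J.absNorm ≤ X}.ncard : ℝ) ≤ C * (X : ℝ) ^ (1 + ε) := by
  classical
  have hk1 : (0 : ℝ) < (k : ℝ) + 1 := by positivity
  obtain ⟨C, hC1, hC⟩ := pow_omega_le (max 1 (k : ℝ)) (ε / (k + 1)) (le_max_left _ _)
    (by positivity)
  refine ⟨C ^ k, by positivity, ?_⟩
  intro L _ _ hL X hX
  have hcover : {J : Ideal (𝓞 L) | J ≠ ⊥ ∧ J.absNorm ≤ X} ⊆
      ⋃ a ∈ Finset.Icc 1 X, {J : Ideal (𝓞 L) | J ∣ Ideal.span {(a : 𝓞 L)}} := by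
    rintro J ⟨hJ0, hJX⟩
    simp only [Set.mem_iUnion, Set.mem_ofPred_eq]
    refine ⟨J.absNorm, ?_, ?_⟩
    · rw [Finset.mem_Icc]
      refine ⟨Nat.one_le_iff_ne_zero.2 ?_, hJX⟩
      rwa [Ne, Ideal.absNorm_eq_zero_iff]
    · exact Ideal.dvd_span_singleton.2 (Ideal.absNorm_mem J)
  have hfin : (⋃ a ∈ Finset.Icc 1 X, {J : Ideal (𝓞 L) | J ∣ Ideal.span {(a : 𝓞 L)}}).Finite := by
    refine Set.Finite.biUnion (Finset.finite_toSet _) fun a ha => ?_
    have ha' := (Finset.mem_Icc.1 (Finset.mem_coe.1 ha)).1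
    exact (divisors_le a (by omega)).1
  refine ⟨hfin.subset hcover, ?_⟩
  have hone : ∀ a ∈ Finset.Icc 1 X,
      ({J : Ideal (𝓞 L) | J ∣ Ideal.span {(a : 𝓞 L)}}.ncard : ℝ) ≤ C ^ k * (X : ℝ) ^ ε := by
    intro a ha
    rw [Finset.mem_Icc] at ha
    have ha0 : a ≠ 0 := by omega
    have h1 := (divisors_le (L := L) a ha0).2
    rw [hL] at h1
    have haR : (1 : ℝ) ≤ a := by exact_mod_cast ha.1
    have h2 : ((k : ℝ) ^ a.primeFactors.card * a.divisors.card) ≤ C * (a : ℝ) ^ (ε / (k + 1)) := by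
      refine le_trans ?_ (hC a ha0).2
      gcongr
      exact le_max_right _ _
    calc ({J : Ideal (𝓞 L) | J ∣ Ideal.span {(a : 𝓞 L)}}.ncard : ℝ)
        ≤ (((k ^ a.primeFactors.card * a.divisors.card) ^ k : ℕ) : ℝ) := by exact_mod_cast h1
      _ = ((k : ℝ) ^ a.primeFactors.card * a.divisors.card) ^ k := by push_cast; ring
      _ ≤ (C * (a : ℝ) ^ (ε / (k + 1))) ^ k := by gcongr
      _ = C ^ k * (a : ℝ) ^ (ε / (k + 1) * k) := by
          rw [mul_pow, ← Real.rpow_natCast ((a : ℝ) ^ (ε / (k + 1))) k,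
            ← Real.rpow_mul (by positivity)]
      _ ≤ C ^ k * (a : ℝ) ^ ε := by
          refine mul_le_mul_of_nonneg_left ?_ (by positivity)
          refine Real.rpow_le_rpow_of_exponent_le haR ?_
          rw [div_mul_eq_mul_div, div_le_iff₀ hk1]
          nlinarith
      _ ≤ C ^ k * (X : ℝ) ^ ε := by
          refine mul_le_mul_of_nonneg_left ?_ (by positivity)
          exact Real.rpow_le_rpow (by positivity) (by exact_mod_cast ha.2) hε.le
  calc ({J : Ideal (𝓞 L) | J ≠ ⊥ ∧ J.absNorm ≤ X}.ncard : ℝ)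
      ≤ ((⋃ a ∈ Finset.Icc 1 X, {J : Ideal (𝓞 L) | J ∣ Ideal.span {(a : 𝓞 L)}}).ncard : ℝ) := by
        exact_mod_cast Set.ncard_le_ncard hcover hfin
    _ ≤ ((∑ a ∈ Finset.Icc 1 X, {J : Ideal (𝓞 L) | J ∣ Ideal.span {(a : 𝓞 L)}}.ncard : ℕ) : ℝ) := by
        exact_mod_cast Finset.set_ncard_biUnion_le _ _
    _ = ∑ a ∈ Finset.Icc 1 X, ({J : Ideal (𝓞 L) | J ∣ Ideal.span {(a : 𝓞 L)}}.ncard : ℝ) := by
        push_cast; rfl
    _ ≤ ∑ a ∈ Finset.Icc 1 X, C ^ k * (X : ℝ) ^ ε := Finset.sum_le_sum hone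
    _ = C ^ k * (X : ℝ) ^ (1 + ε) := by
        have hXpos : (0 : ℝ) < X := by exact_mod_cast hX
        rw [Finset.sum_const, Nat.card_Icc, nsmul_eq_mul, Real.rpow_add hXpos, Real.rpow_one]
        push_cast
        ring_nf

end Pool.Agent.Helper12.VW
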